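import Pool.Agent.W850.HT.SubLap

/-!
# A pure jump subordinator with infinite Lévy measure for which Hunt's hypothesis (H) fails

The subordinator is `X t = ∑ m, e (m + 1) * N m t`, where the `N m` are independent Poisson
processes with rates `r m`, where `e n` is an integer multiple of `e (n + 1)`, and where
`s n = ∑ m ≥ n, e (m + 1) * r m` is finite. The thin set which is not polar is the closed set `A` of
all `x` such that, for every `n`, `x` mod `e n` lies in a window of length about
`(1 - δ n) * e n * (T (n + 1) / T n)`, where `T n = e n / s n`. Up to jumps of size `≥ e n`, which do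
not change `x` mod `e n`, the process moves with nearly constant speed `s n`. From a point of `A`
it leaves the `n`-th window for good during the time interval `((1 - δ n) * T (n + 1), T n - ..)`,
and these intervals cover `(0, ε)`, so that `A` is thin. A Fubini argument with a uniformly
distributed starting point shows that `A` is not polar.
-/

set_option autoImplicit false

open MeasureTheory ProbabilityTheory Set Filter Topology
open scoped NNReal ENNReal

namespace Pool.Agent.Results.MP_4b85d8_pr.SubordinatorWithoutH

open Pool.Agent.W850.HT

/-- There are a pure jump subordinator with infinite Lévy measure and a closed thin set which is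
not polar for it; in particular Hunt's hypothesis (H) fails for this subordinator. -/
theorem result : ∃ (Ω : Type) (_ : MeasurableSpace Ω) (P : Measure Ω) (X : ℝ≥0 → Ω → ℝ)
    (μ : Measure ℝ), IsProbabilityMeasure P ∧ IsPureJumpSubordinator P X μ ∧ μ (Ioi 0) = ∞ ∧
    (∃ A : Set ℝ, IsClosed A ∧ Thin P X A ∧ ¬ Polar P X A) ∧ ¬ HypothesisH P X :=
  ⟨Om, inferInstance, PP Sub.par.r, Sub.par.X, Sub.mu, inferInstance, Sub.isSub, Sub.mu_infinite,
    ⟨Sub.dat.clk.A, Sub.dat.clk.isClosed_A, Sub.thin_A, Sub.not_polar_A⟩, Sub.not_H⟩

end Pool.Agent.Results.MP_4b85d8_pr.SubordinatorWithoutH
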